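import Mathlib

set_option autoImplicit false

namespace Pool.Agent.Results.MP_9038fc_co.HamGap

/-- `T i j` means that the arc between `i` and `j` goes from `i` to `j`. -/
def IsTournament {n : ℕ} (T : Fin n → Fin n → Prop) : Prop :=
  (∀ i, ¬ T i i) ∧ ∀ i j, i ≠ j → ((T i j ∧ ¬ T j i) ∨ (T j i ∧ ¬ T i j))

/-- The set of Hamiltonian circuits of `T`, each given by its set of arcs: the arc sets
`{(σ k, σ (k+1))}` (indices cyclic) of the cyclic enumerations `σ 0, σ 1, …, σ (n-1)` of all
the vertices, all of whose arcs are arcs of `T`. -/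
def hamCircuits {n : ℕ} (T : Fin n → Fin n → Prop) : Set (Set (Fin n × Fin n)) :=
  {E | ∃ σ : Equiv.Perm (Fin n), E = {p | ∃ k : Fin n, p = (σ k, σ (finRotate n k))} ∧
    ∀ k : Fin n, T (σ k) (σ (finRotate n k))}

/-- The number of distinct Hamiltonian circuits. -/
noncomputable def numHam {n : ℕ} (T : Fin n → Fin n → Prop) : ℕ := (hamCircuits T).ncard

/-! ### certified classification data -/

/-- adjacency from a code -/
def adjC (c i j : ℕ) : Bool := Nat.testBit c (8 * i + j)

/-- extension of the code `c` on `{0..n-1}` by vertex `n` with out-set `S` -/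
def extC (n c S i j : ℕ) : Bool :=
  if i = n then (if j = n then false else Nat.testBit S j)
  else (if j = n then !(Nat.testBit S i) else adjC c i j)

def dig (s i : ℕ) : ℕ := s / 8 ^ i % 8

def chk (n c S c' s : ℕ) : Bool :=
  (List.range (n + 1)).all fun i =>
    Nat.ble (dig s i) n && (List.range (n + 1)).all fun j =>
      (extC n c S (dig s i) (dig s j) == adjC c' i j) && (Nat.beq i j || !(Nat.beq (dig s i) (dig s j)))

def chkAll (n : ℕ) (cert : List (ℕ × List (ℕ × ℕ))) (L' : List ℕ) : Bool :=
  cert.all fun e => (List.range (2 ^ n)).all fun S =>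
    chk n e.1 S (e.2.getD S (0, 0)).1 (e.2.getD S (0, 0)).2 &&
      L'.contains (e.2.getD S (0, 0)).1

def cert1 : List (ℕ × List (ℕ × ℕ)) :=
  [(0, [(256, 1), (256, 8)])]

def cert2 : List (ℕ × List (ℕ × ℕ)) :=
  [(256, [(196864, 66), (196864, 80), (131332, 136), (196864, 136)])]

def cert3 : List (ℕ × List (ℕ × ℕ)) :=
  [(196864, [(117637376, 1091), (117637376, 1112), (34275592, 1672), (117637376, 1224), (100860168, 1091), (84084992, 1672), (100860168, 1672), (117637376, 1672)]),
   (131332, [(84084992, 1091), (100860168, 1112), (100860168, 153), (100860168, 1224), (100860168, 538), (100860168, 706), (100860168, 209), (34275592, 1224)])]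

def cert4 : List (ℕ × List (ℕ × ℕ)) :=
  [(117637376, [(64542146816, 13380), (64542146816, 13408), (8977056016, 18056), (64542146816, 13576), (26155876624, 9796), (21860913408, 18056), (26155876624, 18056), (64542146816, 14472), (60247179536, 13380), (55952216320, 13408), (43068358928, 18056), (47363326208, 18056), (51657249040, 18056), (55952216320, 18056), (60247179536, 18056), (64542146816, 18056)]),
   (34275592, [(21860913408, 13380), (26155876624, 13408), (26155876624, 1249), (26155876624, 13576), (60213627152, 9796), (26122324240, 13408), (26122324240, 1249), (43068358928, 14472), (26155876624, 5155), (26155876624, 5379), (26155876624, 1305), (8977056016, 13576), (26122324240, 5155), (43068358928, 6275), (43068358928, 2201), (8977056016, 14472)]),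
   (100860168, [(55952216320, 13380), (60247179536, 13408), (43068358928, 1697), (60247179536, 13576), (26122324240, 9796), (60213627152, 14472), (51657249040, 1809), (60247179536, 14472), (51657249040, 13380), (51657249040, 13408), (26122324240, 1305), (43068358928, 13576), (51640471832, 18056), (26122324240, 14472), (51657249040, 2257), (26155876624, 14472)]),
   (84084992, [(47363326208, 13380), (47363326208, 13408), (43068358928, 5764), (55952216320, 13576), (43068358928, 8900), (55952216320, 5904), (26122324240, 18056), (55952216320, 14472), (43068358928, 13380), (55952216320, 8984), (26122324240, 17496), (55952216320, 10328), (26122324240, 17104), (55952216320, 6352), (60213627152, 18056), (21860913408, 14472)])]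

def cert5 : List (ℕ × List (ℕ × ℕ)) :=
  [(64542146816, [(34149402607872, 144453), (34149402607872, 144488), (2401543323936, 181896), (34149402607872, 144712), (6799587737888, 83525), (5700076118272, 181896), (6799587737888, 181896), (34149402607872, 146056), (15595143889184, 115781), (14495632269568, 115816), (11197099475232, 181896), (12296611102976, 181896), (13396120641824, 181896), (14495632269568, 181896), (15595143889184, 181896), (34149402607872, 153224), (33049890980128, 144453), (31950379360512, 144488), (19856290414880, 181896), (29751358193920, 144712), (22055311581472, 181896), (23154823209216, 181896), (24254334828832, 181896), (25353846456576, 181896), (26452823318816, 181896), (27552334946560, 181896), (28651846566176, 181896), (29751358193920, 181896), (30850867732768, 181896), (31950379360512, 181896), (33049890980128, 181896), (34149402607872, 181896)]),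
   (8977056016, [(5700076118272, 144453), (6799587737888, 144488), (6799587737888, 13609), (6799587737888, 144712), (24211653595424, 83525), (6756906504480, 140904), (6756906504480, 10025), (11197099475232, 146056), (33007209746720, 115781), (6790997807392, 144488), (6790997807392, 13609), (6782408917280, 144712), (13340555551024, 181896), (19847700484384, 153224), (19847700484384, 22177), (19856290414880, 153224), (6799587737888, 46124), (6799587737888, 46404), (6799587737888, 13665), (2401543323936, 144712), (6756906504480, 42540), (11197099475232, 47748), (11197099475232, 15009), (2401543323936, 146056), (6790997807392, 46124), (6782408917280, 46404), (6782408917280, 13665), (2384364503328, 153224), (19847700484384, 54916), (19856290414880, 54916), (19856290414880, 22177), (2401543323936, 153224)]),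
   (26155876624, [(14495632269568, 144453), (15595143889184, 144488), (11197099475232, 14505), (15595143889184, 144712), (6756906504480, 83525), (24211653595424, 153224), (13396120641824, 14673), (15595143889184, 146056), (33041301049632, 115781), (15586553958688, 144488), (11188509544736, 14505), (15577965068576, 144712), (13357734371632, 181896), (24245744898336, 153224), (13378941821216, 14673), (24254334828832, 153224), (13396120641824, 144453), (13396120641824, 144488), (6756906504480, 10081), (11197099475232, 144712), (22016925311280, 181896), (6756906504480, 153224), (13396120641824, 15121), (6799587737888, 146056), (13391825674544, 144453), (6773818986784, 153224), (11171330724128, 10977), (6782408917280, 153224), (22051016614192, 22289), (6790997807392, 153224), (22055311581472, 22289), (6799587737888, 153224)]),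
   (21860913408, [(12296611102976, 144453), (12296611102976, 144488), (11197099475232, 47237), (14495632269568, 144712), (11197099475232, 78597), (14495632269568, 47440), (6756906504480, 181896), (14495632269568, 146056), (33032712159520, 115781), (31933200539904, 115816), (11154418241824, 181896), (14478453448960, 144712), (11154418241824, 169744), (14478453448960, 47440), (15552462655776, 181896), (23154823209216, 153224), (11197099475232, 144453), (14495632269568, 78688), (6756906504480, 173664), (14495632269568, 80480), (6756906504480, 169744), (14495632269568, 47888), (24211653595424, 181896), (5700076118272, 146056), (11154418241824, 173664), (14478453448960, 78688), (15552462655776, 173664), (23154823209216, 87648), (15552462655776, 169744), (23154823209216, 55056), (33007209746720, 181896), (5700076118272, 153224)]),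
   (60247179536, [(31950379360512, 144453), (33049890980128, 144488), (19856290414880, 18089), (33049890980128, 144712), (6790997807392, 83525), (33007209746720, 153224), (22055311581472, 18257), (33049890980128, 146056), (15586553958688, 115781), (33041301049632, 144488), (11154418241824, 14505), (33032712159520, 153224), (13391825674544, 181896), (33041301049632, 153224), (26452823318816, 19153), (33049890980128, 153224), (30850867732768, 144453), (30850867732768, 144488), (19847700484384, 18089), (28651846566176, 144712), (22051016614192, 181896), (15552462655776, 153224), (13378941821216, 15121), (24254334828832, 146056), (30846572765488, 144453), (15569375138080, 153224), (26444233388320, 22737), (15577965068576, 153224), (30846572765488, 181896), (15586553958688, 153224), (26452823318816, 22737), (15595143889184, 153224)]),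
   (55952216320, [(29751358193920, 144453), (29751358193920, 144488), (19856290414880, 50821), (31950379360512, 144712), (6782408917280, 83525), (23154823209216, 51024), (6790997807392, 181896), (31950379360512, 146056), (15577965068576, 115781), (14478453448960, 115816), (11188509544736, 181896), (31933200539904, 153224), (6773818986784, 170192), (27552334946560, 51920), (15586553958688, 181896), (31950379360512, 153224), (28651846566176, 144453), (27552334946560, 144488), (19847700484384, 181896), (27552334946560, 144712), (11171330724128, 170192), (14478453448960, 47888), (24245744898336, 181896), (23154823209216, 146056), (26444233388320, 181896), (27543745016064, 181896), (28643256635680, 181896), (14478453448960, 153224), (15569375138080, 170192), (27552334946560, 55504), (33041301049632, 181896), (14495632269568, 153224)]),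
   (43068358928, [(23154823209216, 144453), (24254334828832, 144488), (6782408917280, 13609), (24254334828832, 144712), (24245744898336, 83525), (15552462655776, 140904), (11171330724128, 10473), (28651846566176, 146056), (15552462655776, 115781), (24245744898336, 144488), (6773818986784, 13609), (15577965068576, 142024), (13374646853936, 181896), (28643256635680, 153224), (26444233388320, 19153), (28651846566176, 153224), (22055311581472, 144453), (22055311581472, 144488), (6790997807392, 13665), (19856290414880, 144712), (13357734371632, 140869), (11154418241824, 153224), (11188509544736, 15009), (19856290414880, 146056), (22051016614192, 144453), (11171330724128, 153224), (6773818986784, 13665), (6782408917280, 142024), (30829393944880, 181896), (11188509544736, 153224), (11154418241824, 15009), (11197099475232, 153224)]),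
   (47363326208, [(25353846456576, 144453), (25353846456576, 144488), (2384364503328, 181896), (25353846456576, 144712), (24254334828832, 83525), (23154823209216, 83560), (6782408917280, 181896), (29751358193920, 146056), (24254334828832, 108613), (23154823209216, 108648), (6782408917280, 174280), (29751358193920, 84680), (13378941821216, 181896), (14478453448960, 181896), (15577965068576, 181896), (29751358193920, 153224), (24254334828832, 144453), (23154823209216, 144488), (6782408917280, 177416), (29751358193920, 109320), (13378941821216, 177416), (14478453448960, 177416), (15577965068576, 177416), (29751358193920, 120072), (13378941821216, 174280), (14478453448960, 174280), (15577965068576, 174280), (29751358193920, 88264), (30833688912160, 181896), (31933200539904, 181896), (33032712159520, 181896), (12296611102976, 153224)]),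
   (51657249040, [(27552334946560, 144453), (28651846566176, 144488), (19847700484384, 50821), (30850867732768, 144712), (6773818986784, 83525), (15552462655776, 137040), (22051016614192, 18257), (30850867732768, 146056), (15569375138080, 115781), (28643256635680, 144488), (30829393944880, 153224), (30833688912160, 153224), (30837982834992, 153224), (15569375138080, 137936), (30846572765488, 153224), (30850867732768, 153224), (26452823318816, 144453), (26452823318816, 144488), (13340555551024, 153224), (26452823318816, 144712), (13391825674544, 78380), (11154418241824, 137040), (13357734371632, 153224), (22055311581472, 146056), (30846572765488, 107052), (26444233388320, 144488), (13374646853936, 153224), (13378941821216, 153224), (30837982834992, 181896), (6773818986784, 137936), (13391825674544, 153224), (13396120641824, 153224)]),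
   (60213627152, [(31933200539904, 144453), (33032712159520, 144488), (11188509544736, 50821), (33041301049632, 144712), (11188509544736, 82629), (33041301049632, 137040), (13357734371632, 14673), (33041301049632, 146056), (11188509544736, 115781), (33041301049632, 140120), (13357734371632, 10571), (33041301049632, 141912), (13357734371632, 6490), (33041301049632, 137936), (13340555551024, 14673), (33007209746720, 146056), (30833688912160, 144453), (30833688912160, 144488), (30829393944880, 136837), (28643256635680, 144712), (30829393944880, 139973), (28643256635680, 137040), (13374646853936, 15121), (24245744898336, 146056), (30829393944880, 144453), (28643256635680, 140120), (13374646853936, 11019), (24245744898336, 141912), (13374646853936, 6938), (24245744898336, 137936), (13340555551024, 15121), (24211653595424, 146056)]),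
   (26122324240, [(14478453448960, 144453), (15577965068576, 144488), (11154418241824, 50821), (15586553958688, 144712), (11171330724128, 82629), (24245744898336, 137040), (13391825674544, 14673), (15586553958688, 146056), (28643256635680, 115781), (15569375138080, 144488), (30829393944880, 100521), (15569375138080, 144712), (28613426743600, 152272), (28643256635680, 137936), (13374646853936, 14673), (15552462655776, 146056), (13378941821216, 144453), (13378941821216, 144488), (13357734371632, 42540), (11188509544736, 144712), (22051016614192, 71212), (19847700484384, 137040), (13391825674544, 15121), (6790997807392, 146056), (13374646853936, 144453), (26444233388320, 140120), (28613426743600, 181896), (11171330724128, 144712), (30829393944880, 35554), (19847700484384, 137936), (13357734371632, 15121), (6756906504480, 146056)]),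
   (51640471832, [(27543745016064, 144453), (26444233388320, 18061), (26444233388320, 35029), (30846572765488, 144712), (26444233388320, 69917), (13374646853936, 6378), (30846572765488, 18257), (30846572765488, 146056), (26444233388320, 107045), (13374646853936, 115816), (13374646853936, 41259), (30829393944880, 144712), (30846572765488, 35162), (30829393944880, 35162), (30846572765488, 19153), (22051016614192, 19153), (26444233388320, 144453), (30846572765488, 107332), (13374646853936, 132777), (30846572765488, 109124), (13374646853936, 78380), (30829393944880, 107332), (30829393944880, 18257), (22051016614192, 146056), (30846572765488, 69987), (30846572765488, 72227), (30829393944880, 69987), (22051016614192, 109124), (30846572765488, 35610), (22051016614192, 72227), (22051016614192, 35610), (22016925311280, 146056)])]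

def mats : List (ℕ × List (List ℕ)) :=
  [(34149402607872, [[0, 0, 0, 0, 0, 0], [0, 0, 0, 0, 0, 0], [0, 0, 0, 0, 0, 0], [0, 0, 0, 0, 0, 0], [0, 0, 0, 0, 0, 0], [1, 0, 0, 0, 0, 0]]),
   (2401543323936, [[0, 0, 0, 0, 0, 0], [0, 0, 0, 0, 0, 0], [0, 0, 0, 0, 0, 0], [0, 0, 0, 0, 0, 0], [1, 1, 0, 0, 0, 1], [0, 0, 0, 0, 0, 0]]),
   (6799587737888, [[0, 0, 0, 0, 0, 0], [0, 0, 0, 0, 0, 0], [0, 0, 0, 0, 0, 0], [0, 0, 0, 0, 0, 0], [1, 2, 1, 0, 0, 1], [0, 0, 0, 0, 0, 0]]),
   (5700076118272, [[0, 0, 0, 0, 0, 0], [0, 0, 0, 0, 0, 0], [0, 0, 0, 0, 0, 0], [0, 0, 0, 0, 0, 0], [3, 0, 0, 0, 0, 0], [0, 0, 0, 0, 0, 0]]),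
   (15595143889184, [[0, 0, 0, 0, 0, 0], [0, 0, 0, 0, 0, 0], [0, 0, 0, 0, 0, 0], [0, 0, 0, 0, 0, 0], [1, 4, 2, 1, 0, 1], [0, 0, 0, 0, 0, 0]]),
   (14495632269568, [[0, 0, 0, 0, 0, 0], [0, 0, 0, 0, 0, 0], [0, 0, 0, 0, 0, 0], [0, 0, 0, 0, 0, 0], [5, 0, 0, 0, 0, 0], [0, 0, 0, 0, 0, 0]]),
   (11197099475232, [[0, 0, 0, 0, 0, 0], [0, 0, 0, 0, 0, 0], [0, 0, 0, 0, 0, 0], [0, 0, 0, 0, 0, 0], [3, 3, 1, 1, 0, 1], [0, 0, 0, 0, 0, 0]]),
   (12296611102976, [[0, 0, 0, 0, 0, 0], [0, 0, 0, 0, 0, 0], [0, 0, 0, 0, 0, 0], [0, 0, 0, 0, 0, 0], [3, 0, 0, 0, 0, 0], [0, 0, 0, 0, 0, 0]]),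
   (13396120641824, [[0, 0, 0, 0, 0, 0], [0, 0, 0, 0, 0, 0], [0, 0, 0, 0, 0, 0], [0, 0, 0, 0, 0, 0], [4, 3, 2, 1, 0, 1], [0, 0, 0, 0, 0, 0]]),
   (33049890980128, [[0, 1, 0, 0, 0, 0], [0, 0, 1, 0, 0, 0], [0, 1, 0, 1, 0, 0], [0, 2, 1, 0, 1, 0], [0, 4, 2, 1, 0, 1], [1, 0, 0, 0, 0, 0]]),
   (31950379360512, [[0, 0, 0, 0, 0, 0], [1, 0, 0, 0, 0, 0], [1, 0, 0, 0, 0, 0], [2, 0, 0, 0, 0, 0], [4, 0, 0, 0, 0, 0], [1, 0, 0, 0, 0, 0]]),
   (19856290414880, [[0, 1, 0, 0, 0, 0], [0, 0, 1, 0, 0, 0], [1, 1, 0, 1, 0, 0], [2, 2, 1, 0, 1, 0], [1, 1, 0, 0, 0, 1], [1, 0, 0, 0, 0, 0]]),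
   (29751358193920, [[0, 0, 0, 0, 0, 0], [0, 0, 0, 0, 0, 0], [1, 0, 0, 0, 0, 0], [1, 0, 0, 0, 0, 0], [2, 0, 0, 0, 0, 0], [1, 0, 0, 0, 0, 0]]),
   (22055311581472, [[0, 1, 0, 0, 0, 0], [1, 0, 1, 0, 0, 0], [1, 1, 0, 1, 0, 0], [3, 2, 1, 0, 1, 0], [2, 1, 1, 0, 0, 1], [1, 0, 0, 0, 0, 0]]),
   (23154823209216, [[0, 0, 0, 0, 0, 0], [1, 0, 0, 0, 0, 0], [1, 0, 0, 0, 0, 0], [3, 0, 0, 0, 0, 0], [3, 0, 0, 0, 0, 0], [1, 0, 0, 0, 0, 0]]),
   (24254334828832, [[0, 1, 0, 0, 0, 0], [0, 0, 1, 0, 0, 0], [0, 1, 0, 1, 0, 0], [1, 2, 1, 0, 1, 0], [1, 2, 1, 0, 0, 1], [1, 0, 0, 0, 0, 0]]),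
   (25353846456576, [[0, 0, 0, 0, 0, 0], [0, 0, 0, 0, 0, 0], [0, 0, 0, 0, 0, 0], [1, 0, 0, 0, 0, 0], [1, 0, 0, 0, 0, 0], [1, 0, 0, 0, 0, 0]]),
   (26452823318816, [[0, 1, 0, 0, 0, 0], [1, 0, 1, 0, 0, 0], [2, 1, 0, 1, 0, 0], [3, 2, 1, 0, 1, 0], [3, 2, 1, 1, 0, 1], [1, 0, 0, 0, 0, 0]]),
   (27552334946560, [[0, 0, 0, 0, 0, 0], [1, 0, 0, 0, 0, 0], [2, 0, 0, 0, 0, 0], [3, 0, 0, 0, 0, 0], [4, 0, 0, 0, 0, 0], [1, 0, 0, 0, 0, 0]]),
   (28651846566176, [[0, 1, 0, 0, 0, 0], [0, 0, 1, 0, 0, 0], [1, 1, 0, 1, 0, 0], [1, 2, 1, 0, 1, 0], [2, 3, 1, 1, 0, 1], [1, 0, 0, 0, 0, 0]]),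
   (30850867732768, [[0, 1, 0, 0, 0, 0], [1, 0, 1, 0, 0, 0], [1, 1, 0, 1, 0, 0], [2, 2, 1, 0, 1, 0], [3, 3, 2, 1, 0, 1], [1, 0, 0, 0, 0, 0]]),
   (24211653595424, [[0, 0, 0, 0, 0, 0], [0, 0, 0, 0, 0, 0], [0, 0, 0, 0, 0, 0], [3, 3, 3, 0, 3, 3], [0, 0, 0, 0, 0, 0], [0, 0, 0, 0, 0, 0]]),
   (6756906504480, [[0, 0, 0, 0, 0, 0], [0, 0, 0, 0, 0, 0], [0, 0, 0, 0, 0, 0], [4, 2, 2, 0, 2, 3], [0, 0, 0, 0, 0, 0], [0, 0, 0, 0, 0, 0]]),
   (33007209746720, [[0, 1, 1, 0, 1, 0], [0, 0, 2, 1, 0, 0], [0, 0, 0, 1, 2, 0], [0, 3, 3, 0, 3, 3], [0, 2, 0, 1, 0, 0], [3, 0, 0, 0, 0, 0]]),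
   (6790997807392, [[0, 0, 1, 1, 0, 0], [1, 0, 1, 0, 0, 1], [0, 0, 0, 1, 0, 1], [3, 0, 2, 0, 2, 2], [1, 2, 1, 0, 0, 1], [2, 0, 0, 0, 0, 0]]),
   (6782408917280, [[0, 1, 0, 0, 0, 0], [0, 0, 0, 1, 0, 0], [1, 1, 0, 0, 0, 1], [2, 2, 0, 0, 1, 1], [1, 2, 1, 0, 0, 1], [1, 0, 0, 0, 0, 0]]),
   (13340555551024, [[0, 2, 1, 0, 0, 0], [0, 0, 1, 0, 2, 0], [2, 2, 0, 3, 2, 0], [2, 2, 3, 0, 2, 3], [2, 0, 1, 0, 0, 0], [1, 1, 0, 0, 1, 0]]),
   (19847700484384, [[0, 1, 1, 0, 0, 0], [0, 0, 1, 0, 0, 1], [2, 1, 0, 2, 0, 1], [3, 1, 2, 0, 2, 2], [1, 1, 0, 0, 0, 1], [2, 0, 0, 0, 0, 0]]),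
   (2384364503328, [[0, 0, 0, 0, 0, 0], [0, 0, 0, 0, 0, 0], [1, 1, 0, 0, 0, 1], [1, 1, 0, 0, 0, 1], [1, 1, 0, 0, 0, 1], [0, 0, 0, 0, 0, 0]]),
   (33041301049632, [[0, 1, 2, 1, 1, 0], [0, 0, 3, 1, 0, 1], [0, 1, 0, 3, 1, 1], [0, 1, 3, 0, 3, 2], [0, 4, 1, 1, 0, 1], [5, 0, 0, 0, 0, 0]]),
   (15586553958688, [[0, 0, 2, 1, 1, 0], [1, 0, 2, 1, 0, 1], [1, 0, 0, 2, 1, 1], [1, 0, 2, 0, 2, 2], [1, 4, 1, 1, 0, 1], [4, 0, 0, 0, 0, 0]]),
   (11188509544736, [[0, 0, 2, 0, 1, 0], [2, 0, 1, 1, 0, 1], [3, 0, 0, 2, 1, 1], [1, 0, 1, 0, 1, 2], [3, 3, 0, 1, 0, 1], [3, 0, 0, 0, 0, 0]]),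
   (15577965068576, [[0, 2, 0, 0, 0, 0], [0, 0, 0, 1, 1, 0], [1, 2, 0, 1, 0, 1], [1, 2, 0, 0, 1, 1], [1, 3, 2, 0, 0, 1], [2, 0, 0, 0, 0, 0]]),
   (13357734371632, [[0, 2, 1, 1, 0, 0], [1, 0, 3, 0, 1, 0], [0, 2, 0, 2, 2, 0], [2, 1, 3, 0, 1, 4], [3, 1, 1, 1, 0, 0], [1, 2, 1, 0, 1, 0]]),
   (24245744898336, [[0, 1, 1, 1, 0, 0], [1, 0, 2, 0, 0, 1], [0, 1, 0, 2, 0, 1], [3, 1, 3, 0, 3, 2], [1, 2, 1, 0, 0, 1], [3, 0, 0, 0, 0, 0]]),
   (13378941821216, [[0, 2, 0, 0, 0, 0], [2, 0, 0, 1, 1, 0], [2, 1, 0, 1, 0, 1], [1, 1, 0, 0, 1, 1], [3, 2, 2, 0, 0, 1], [2, 0, 0, 0, 0, 0]]),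
   (22016925311280, [[0, 0, 0, 0, 0, 0], [0, 0, 0, 0, 0, 0], [0, 0, 0, 0, 0, 0], [3, 3, 3, 0, 3, 3], [0, 0, 0, 0, 0, 0], [0, 0, 0, 0, 0, 0]]),
   (13391825674544, [[0, 1, 2, 1, 0, 1], [0, 0, 2, 1, 1, 0], [0, 1, 0, 2, 1, 1], [0, 1, 2, 0, 1, 3], [4, 2, 2, 1, 0, 1], [0, 3, 1, 1, 1, 0]]),
   (6773818986784, [[0, 1, 1, 1, 0, 0], [1, 0, 1, 1, 0, 1], [1, 1, 0, 1, 0, 2], [3, 1, 1, 0, 3, 1], [1, 2, 1, 0, 0, 1], [3, 0, 0, 0, 0, 0]]),
   (11171330724128, [[0, 0, 1, 0, 1, 0], [1, 0, 1, 0, 1, 1], [4, 2, 0, 2, 1, 2], [2, 1, 0, 0, 1, 1], [2, 2, 0, 0, 0, 1], [2, 0, 0, 0, 0, 0]]),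
   (22051016614192, [[0, 2, 1, 0, 0, 1], [1, 0, 2, 1, 0, 0], [1, 1, 0, 1, 0, 2], [2, 3, 2, 0, 3, 2], [2, 1, 1, 0, 0, 1], [1, 1, 0, 1, 0, 0]]),
   (33032712159520, [[0, 3, 0, 0, 0, 0], [0, 0, 1, 1, 1, 0], [0, 3, 0, 2, 0, 1], [0, 3, 0, 0, 2, 1], [0, 3, 2, 0, 0, 1], [3, 0, 0, 0, 0, 0]]),
   (31933200539904, [[0, 0, 0, 0, 0, 0], [3, 0, 0, 0, 0, 0], [3, 0, 0, 0, 0, 0], [3, 0, 0, 0, 0, 0], [3, 0, 0, 0, 0, 0], [3, 0, 0, 0, 0, 0]]),
   (11154418241824, [[0, 1, 1, 0, 1, 0], [2, 0, 2, 1, 0, 0], [2, 0, 0, 1, 2, 0], [2, 1, 1, 0, 1, 3], [2, 2, 0, 1, 0, 0], [3, 0, 0, 0, 0, 0]]),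
   (14478453448960, [[0, 0, 0, 0, 0, 0], [2, 0, 0, 0, 0, 0], [3, 0, 0, 0, 0, 0], [2, 0, 0, 0, 0, 0], [4, 0, 0, 0, 0, 0], [2, 0, 0, 0, 0, 0]]),
   (15552462655776, [[0, 1, 1, 0, 1, 0], [1, 0, 2, 1, 0, 0], [1, 0, 0, 1, 2, 0], [2, 2, 2, 0, 2, 3], [1, 2, 0, 1, 0, 0], [3, 0, 0, 0, 0, 0]]),
   (30846572765488, [[0, 1, 2, 1, 0, 1], [1, 0, 2, 1, 1, 0], [1, 1, 0, 2, 1, 1], [1, 2, 2, 0, 2, 2], [3, 2, 2, 1, 0, 1], [1, 3, 1, 1, 1, 0]]),
   (15569375138080, [[0, 1, 1, 1, 1, 0], [1, 0, 2, 1, 1, 1], [2, 2, 0, 2, 1, 2], [2, 1, 1, 0, 3, 1], [1, 3, 1, 0, 0, 1], [4, 0, 0, 0, 0, 0]]),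
   (26444233388320, [[0, 1, 1, 0, 1, 0], [2, 0, 2, 1, 0, 1], [3, 1, 0, 2, 1, 1], [2, 1, 1, 0, 1, 2], [2, 2, 0, 1, 0, 1], [3, 0, 0, 0, 0, 0]]),
   (27543745016064, [[0, 0, 0, 0, 0, 0], [3, 0, 0, 0, 0, 0], [3, 0, 0, 0, 0, 0], [3, 0, 0, 0, 0, 0], [3, 0, 0, 0, 0, 0], [3, 0, 0, 0, 0, 0]]),
   (28643256635680, [[0, 1, 2, 0, 1, 0], [1, 0, 2, 1, 0, 1], [3, 1, 0, 3, 1, 1], [1, 1, 2, 0, 2, 2], [2, 3, 0, 1, 0, 1], [4, 0, 0, 0, 0, 0]]),
   (13374646853936, [[0, 3, 2, 0, 0, 1], [1, 0, 1, 2, 2, 0], [2, 1, 0, 3, 1, 2], [0, 2, 2, 0, 2, 3], [3, 1, 2, 0, 0, 1], [2, 2, 0, 1, 1, 0]]),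
   (30829393944880, [[0, 3, 2, 0, 0, 1], [2, 0, 1, 2, 2, 0], [2, 1, 0, 3, 1, 2], [0, 2, 1, 0, 3, 2], [2, 1, 2, 0, 0, 1], [3, 2, 0, 1, 1, 0]]),
   (30833688912160, [[0, 3, 0, 0, 0, 0], [3, 0, 1, 1, 1, 0], [2, 2, 0, 2, 0, 1], [2, 2, 0, 0, 2, 1], [2, 2, 2, 0, 0, 1], [3, 0, 0, 0, 0, 0]]),
   (30837982834992, [[0, 1, 2, 2, 1, 1], [1, 0, 3, 2, 1, 1], [1, 1, 0, 1, 2, 2], [1, 1, 1, 0, 3, 2], [2, 2, 1, 1, 0, 1], [3, 2, 1, 1, 1, 0]]),
   (28613426743600, [[0, 1, 2, 2, 0, 1], [0, 0, 2, 1, 1, 2], [2, 2, 0, 1, 4, 0], [2, 4, 0, 0, 2, 1], [1, 0, 1, 2, 0, 2], [4, 2, 1, 0, 2, 0]])]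


theorem chk1 : chkAll 1 cert1 (cert2.map Prod.fst) = true := by decide +kernel
theorem chk2 : chkAll 2 cert2 (cert3.map Prod.fst) = true := by decide +kernel
theorem chk3 : chkAll 3 cert3 (cert4.map Prod.fst) = true := by decide +kernel
theorem chk4 : chkAll 4 cert4 (cert5.map Prod.fst) = true := by decide +kernel
theorem chk5 : chkAll 5 cert5 (mats.map Prod.fst) = true := by decide +kernel

def IsoTo (n : ℕ) (T : Fin n → Fin n → Prop) (c : ℕ) : Prop :=
  ∃ π : Equiv.Perm (Fin n), ∀ i j : Fin n, T (π i) (π j) ↔ adjC c i.val j.val = true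

theorem exists_mask {n : ℕ} (Q : Fin n → Prop) :
    ∃ S : ℕ, S < 2 ^ n ∧ ∀ i : Fin n, S.testBit i.val = true ↔ Q i := by
  classical
  refine ⟨Nat.ofBits (fun i => decide (Q i)), Nat.ofBits_lt_two_pow _, ?_⟩
  intro i
  rw [Nat.testBit_ofBits_lt _ _ i.isLt]
  simp

theorem restrict_tournament {n : ℕ} {T : Fin (n + 1) → Fin (n + 1) → Prop}
    (hT : IsTournament T) :
    IsTournament (fun i j : Fin n => T i.castSucc j.castSucc) := by
  refine ⟨fun i => hT.1 _, fun i j hij => hT.2 _ _ ?_⟩
  intro h
  exact hij (Fin.castSucc_injective _ h)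

/-- A tournament on `n+1` vertices is isomorphic to an extension of its restriction's code. -/
theorem ext_iso {n : ℕ} {T : Fin (n + 1) → Fin (n + 1) → Prop} (hT : IsTournament T) {c : ℕ}
    (h : IsoTo n (fun i j : Fin n => T i.castSucc j.castSucc) c) :
    ∃ S : ℕ, S < 2 ^ n ∧ ∃ π : Equiv.Perm (Fin (n + 1)),
      ∀ i j : Fin (n + 1), T (π i) (π j) ↔ extC n c S i.val j.val = true := by
  obtain ⟨π, hπ⟩ := h
  obtain ⟨S, hS, hSb⟩ := exists_mask (fun i : Fin n => T (Fin.last n) (π i).castSucc)
  refine ⟨S, hS, ?_⟩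
  let f : Fin (n + 1) → Fin (n + 1) :=
    Fin.lastCases (Fin.last n) (fun i => (π i).castSucc)
  have fl : f (Fin.last n) = Fin.last n := by simp [f]
  have fc : ∀ i : Fin n, f i.castSucc = (π i).castSucc := by intro i; simp [f]
  have finj : Function.Injective f := by
    intro x y
    refine Fin.lastCases ?_ (fun i => ?_) x <;> refine Fin.lastCases ?_ (fun j => ?_) y
    · intro _; rfl
    · intro h
      rw [fl, fc] at h
      exact absurd h.symm (Fin.castSucc_ne_last _)
    · intro h
      rw [fl, fc] at h
      exact absurd h (Fin.castSucc_ne_last _)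
    · intro h
      rw [fc, fc] at h
      have := π.injective (Fin.castSucc_injective _ h)
      rw [this]
  have fbij := Finite.injective_iff_bijective.1 finj
  refine ⟨Equiv.ofBijective f fbij, ?_⟩
  intro i j
  simp only [Equiv.ofBijective_apply]
  refine Fin.lastCases ?_ (fun i => ?_) i <;> refine Fin.lastCases ?_ (fun j => ?_) j
  · simp only [fl, extC, Fin.val_last, if_true]
    constructor
    · intro h; exact absurd h (hT.1 _)
    · intro h; exact absurd h (by decide)
  · simp only [fl, fc, extC, Fin.val_last, if_true, Fin.val_castSucc]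
    rw [if_neg (by have := j.isLt; omega)]
    exact (hSb j).symm
  · simp only [fl, fc, extC, Fin.val_last, if_true, Fin.val_castSucc]
    rw [if_neg (by have := i.isLt; omega)]
    have h1 := hSb i
    have h2 := hT.2 (Fin.last n) (π i).castSucc (Fin.castSucc_ne_last _).symm
    cases hb : S.testBit i.val
    · rw [hb] at h1
      simp only [Bool.false_eq_true, false_iff] at h1
      simp only [Bool.not_false, iff_true]
      tauto
    · rw [hb] at h1
      simp only [true_iff] at h1
      simp only [Bool.not_true, Bool.false_eq_true, iff_false]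
      tauto
  · simp only [fc, extC, Fin.val_castSucc]
    rw [if_neg (by have := i.isLt; omega), if_neg (by have := j.isLt; omega)]
    exact hπ i j

theorem step (n : ℕ) (cert : List (ℕ × List (ℕ × ℕ))) (L' : List ℕ)
    (hchk : chkAll n cert L' = true)
    (h : ∀ T : Fin n → Fin n → Prop, IsTournament T → ∃ c ∈ cert.map Prod.fst, IsoTo n T c) :
    ∀ T : Fin (n + 1) → Fin (n + 1) → Prop, IsTournament T → ∃ c ∈ L', IsoTo (n + 1) T c := by
  intro T hT
  obtain ⟨c, hc, hiso⟩ := h _ (restrict_tournament hT)
  rw [List.mem_map] at hc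
  obtain ⟨e, he, rfl⟩ := hc
  obtain ⟨S, hS, π, hπ⟩ := ext_iso hT hiso
  unfold chkAll at hchk
  rw [List.all_eq_true] at hchk
  have h1 := hchk e he
  rw [List.all_eq_true] at h1
  have h2 := h1 S (List.mem_range.2 hS)
  rw [Bool.and_eq_true] at h2
  obtain ⟨h3, h4⟩ := h2
  set c' := (e.2.getD S (0, 0)).1
  set s := (e.2.getD S (0, 0)).2
  refine ⟨c', by simpa using h4, ?_⟩
  unfold chk at h3
  rw [List.all_eq_true] at h3
  have h5 : ∀ i : ℕ, i < n + 1 → dig s i ≤ n ∧ ∀ j : ℕ, j < n + 1 →
      extC n e.1 S (dig s i) (dig s j) = adjC c' i j ∧ (i = j ∨ dig s i ≠ dig s j) := by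
    intro i hi
    have := h3 i (List.mem_range.2 hi)
    rw [Bool.and_eq_true, List.all_eq_true] at this
    refine ⟨Nat.le_of_ble_eq_true this.1, fun j hj => ?_⟩
    have := this.2 j (List.mem_range.2 hj)
    rw [Bool.and_eq_true, beq_iff_eq, Bool.or_eq_true] at this
    refine ⟨this.1, ?_⟩
    rcases this.2 with h | h
    · left; exact Nat.eq_of_beq_eq_true h
    · right
      intro he
      rw [he] at h
      simp at h
  let f : Fin (n + 1) → Fin (n + 1) := fun i => ⟨dig s i.val, by have := (h5 i.val i.isLt).1; omega⟩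
  have finj : Function.Injective f := by
    intro i j hij
    have := ((h5 i.val i.isLt).2 j.val j.isLt).2
    rcases this with h | h
    · exact Fin.ext h
    · exact absurd (congrArg Fin.val hij) h
  have fbij := Finite.injective_iff_bijective.1 finj
  refine ⟨(Equiv.ofBijective f fbij).trans π, ?_⟩
  intro i j
  simp only [Equiv.trans_apply, Equiv.ofBijective_apply]
  rw [hπ, ← ((h5 i.val i.isLt).2 j.val j.isLt).1]

theorem class1 : ∀ T : Fin 1 → Fin 1 → Prop, IsTournament T →
    ∃ c ∈ cert1.map Prod.fst, IsoTo 1 T c := by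
  intro T hT
  refine ⟨0, by decide, 1, ?_⟩
  intro i j
  have hi : i = 0 := Subsingleton.elim _ _
  have hj : j = 0 := Subsingleton.elim _ _
  subst hi; subst hj
  constructor
  · intro h; exact absurd h (hT.1 _)
  · intro h; exact absurd h (by decide)

theorem class6 : ∀ T : Fin 6 → Fin 6 → Prop, IsTournament T →
    ∃ c ∈ mats.map Prod.fst, IsoTo 6 T c :=
  step 5 _ _ chk5 (step 4 _ _ chk4 (step 3 _ _ chk3 (step 2 _ _ chk2 (step 1 _ _ chk1 class1))))

/-! ### invariance of the number of circuits -/

theorem numHam_iso {n : ℕ} (T T' : Fin n → Fin n → Prop) (π : Equiv.Perm (Fin n))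
    (h : ∀ i j, T (π i) (π j) ↔ T' i j) : numHam T = numHam T' := by
  have hinj : Function.Injective (fun E : Set (Fin n × Fin n) => (Prod.map π π) '' E) :=
    Set.image_injective.2 (π.injective.prodMap π.injective)
  have himg : hamCircuits T = (fun E : Set (Fin n × Fin n) => (Prod.map π π) '' E) ''
      hamCircuits T' := by
    ext E
    constructor
    · rintro ⟨σ, rfl, hσ⟩
      refine ⟨_, ⟨σ.trans π.symm, rfl, ?_⟩, ?_⟩
      · intro k
        rw [← h]
        simpa using hσ k
      · ext p
        constructor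
        · rintro ⟨q, ⟨k, rfl⟩, rfl⟩
          exact ⟨k, by simp⟩
        · rintro ⟨k, rfl⟩
          exact ⟨_, ⟨k, rfl⟩, by simp⟩
    · rintro ⟨E', ⟨σ, rfl, hσ⟩, rfl⟩
      refine ⟨σ.trans π, ?_, ?_⟩
      · ext p
        constructor
        · rintro ⟨q, ⟨k, rfl⟩, rfl⟩
          exact ⟨k, by simp⟩
        · rintro ⟨k, rfl⟩
          exact ⟨_, ⟨k, rfl⟩, by simp⟩
      · intro k
        simp only [Equiv.trans_apply]
        rw [h]
        exact hσ k
  unfold numHam
  rw [himg, Set.ncard_image_of_injective _ hinj]

/-! ### counting circuits through walks -/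

/-- walks of length `n` through distinct vertices of `av`, starting at `cur`, with weight `g` at
the end. -/
def walk {α : Type} [DecidableEq α] (R : α → α → Bool) (g : α → ℕ) : ℕ → List α → α → ℕ
  | 0, _, cur => g cur
  | n + 1, av, cur => ((av.filter (R cur)).map (fun w => walk R g n (av.erase w) w)).sum

def Good {α : Type} [DecidableEq α] (R : α → α → Prop) (Fn : α → Prop) :
    (n : ℕ) → List α → α → (Fin n → α) → Prop
  | 0, _, cur, _ => Fn cur
  | n + 1, av, cur, f => f 0 ∈ av ∧ R cur (f 0) ∧ Good R Fn n (av.erase (f 0)) (f 0)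
      (fun i => f i.succ)

theorem good_iff {α : Type} [DecidableEq α] (R : α → α → Prop) (Fn : α → Prop) :
    ∀ (n : ℕ) (av : List α) (_ : av.Nodup) (cur : α) (f : Fin n → α),
      Good R Fn n av cur f ↔ ((∀ i, f i ∈ av) ∧ Function.Injective f ∧
        (∀ i : Fin n, R (Fin.cons (α := fun _ => α) cur f i.castSucc) (f i)) ∧
        Fn (Fin.cons (α := fun _ => α) cur f (Fin.last n))) := by
  intro n
  induction n with
  | zero =>
    intro av _ cur f
    constructor
    · intro h
      refine ⟨fun i => i.elim0, fun i => i.elim0, fun i => i.elim0, ?_⟩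
      exact h
    · rintro ⟨_, _, _, h⟩
      exact h
  | succ n ih =>
    intro av hav cur f
    have ih' := ih (av.erase (f 0)) (hav.erase _) (f 0) (fun i => f i.succ)
    have hfc : f = Fin.cons (α := fun _ => α) (f 0) (fun i => f i.succ) := by
      ext i
      refine Fin.cases ?_ (fun j => ?_) i <;> simp
    constructor
    · rintro ⟨h1, h2, h3⟩
      rw [ih'] at h3
      obtain ⟨a1, a2, a3, a4⟩ := h3
      have hm : ∀ i : Fin n, f i.succ ≠ f 0 ∧ f i.succ ∈ av := by
        intro i
        have := a1 i
        rw [hav.mem_erase_iff] at this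
        exact this
      refine ⟨?_, ?_, ?_, ?_⟩
      · intro i
        refine Fin.cases h1 (fun j => (hm j).2) i
      · intro i j
        refine Fin.cases ?_ (fun i => ?_) i <;> refine Fin.cases ?_ (fun j => ?_) j
        · intro _; rfl
        · intro h; exact absurd h.symm (hm j).1
        · intro h; exact absurd h (hm i).1
        · intro h
          rw [a2 h]
      · intro i
        refine Fin.cases ?_ (fun j => ?_) i
        · simpa using h2
        · have := a3 j
          rw [← hfc] at this
          have e : Fin.cons (α := fun _ => α) cur f (j.succ.castSucc) = f j.castSucc := by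
            rw [← Fin.succ_castSucc]; simp
          rw [e]
          exact this
      · rw [← hfc] at a4
        have e : Fin.cons (α := fun _ => α) cur f (Fin.last (n + 1)) = f (Fin.last n) := by
          rw [← Fin.succ_last]; simp
        rw [e]
        exact a4
    · rintro ⟨b1, b2, b3, b4⟩
      refine ⟨b1 0, by simpa using b3 0, ?_⟩
      rw [ih']
      refine ⟨?_, ?_, ?_, ?_⟩
      · intro i
        rw [hav.mem_erase_iff]
        refine ⟨?_, b1 _⟩
        intro h
        exact absurd (b2 h) (Fin.succ_ne_zero i)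
      · intro i j h
        exact Fin.succ_injective _ (b2 h)
      · intro j
        rw [← hfc]
        have := b3 j.succ
        have e : Fin.cons (α := fun _ => α) cur f (j.succ.castSucc) = f j.castSucc := by
          rw [← Fin.succ_castSucc]; simp
        rw [e] at this
        exact this
      · rw [← hfc]
        have e : Fin.cons (α := fun _ => α) cur f (Fin.last (n + 1)) = f (Fin.last n) := by
          rw [← Fin.succ_last]; simp
        rw [e] at b4
        exact b4

open Classical in
theorem card_good {α : Type} [DecidableEq α] [Fintype α] (R : α → α → Bool) (Fn : α → Bool) :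
    ∀ (n : ℕ) (av : List α) (_ : av.Nodup) (cur : α),
      (∑ f : Fin n → α, if Good (fun a b => R a b = true) (fun a => Fn a = true) n av cur f
        then 1 else 0) = walk R (fun a => if Fn a = true then 1 else 0) n av cur := by
  intro n
  induction n with
  | zero =>
    intro av _ cur
    simp only [walk, Good]
    by_cases h : Fn cur = true <;> simp [h]
  | succ n ih =>
    intro av hav cur
    have e1 : (∑ f : Fin (n + 1) → α,
        if Good (fun a b => R a b = true) (fun a => Fn a = true) (n + 1) av cur f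
        then 1 else 0) = ∑ w : α, ∑ g : Fin n → α,
          if (w ∈ av ∧ R cur w = true) ∧
            Good (fun a b => R a b = true) (fun a => Fn a = true) n (av.erase w) w g
            then 1 else 0 := by
      rw [← Fintype.sum_prod_type']
      rw [← (Fin.consEquiv (fun _ : Fin (n + 1) => α)).sum_comp]
      apply Fintype.sum_congr
      rintro ⟨w, g⟩
      simp [Good, Fin.consEquiv, and_assoc]
    rw [e1]
    have e2 : ∀ w : α, (∑ g : Fin n → α,
          if (w ∈ av ∧ R cur w = true) ∧
            Good (fun a b => R a b = true) (fun a => Fn a = true) n (av.erase w) w g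
            then 1 else 0) = if (w ∈ av ∧ R cur w = true) then
              walk R (fun a => if Fn a = true then 1 else 0) n (av.erase w) w else 0 := by
      intro w
      by_cases hw : (w ∈ av ∧ R cur w = true)
      · rw [if_pos hw, ← ih _ (hav.erase w) w]
        apply Fintype.sum_congr
        intro g
        simp [hw]
      · rw [if_neg hw]
        apply Finset.sum_eq_zero
        intro g _
        rw [if_neg]
        intro h
        exact hw h.1
    simp only [e2]
    rw [← Finset.sum_filter]
    have e3 : (Finset.univ.filter (fun w => w ∈ av ∧ R cur w = true)) =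
        (av.filter (R cur)).toFinset := by
      ext w
      simp
    rw [e3, List.sum_toFinset _ (hav.filter _)]
    rfl

theorem walk_congr {α : Type} [DecidableEq α] (R R' : α → α → Bool) (g g' : α → ℕ) (s : Set α)
    (hR : ∀ a ∈ s, ∀ b ∈ s, R a b = R' a b) (hg : ∀ a ∈ s, g a = g' a) :
    ∀ (n : ℕ) (av : List α) (_ : ∀ a ∈ av, a ∈ s) (cur : α) (_ : cur ∈ s),
      walk R g n av cur = walk R' g' n av cur := by
  intro n
  induction n with
  | zero =>
    intro av _ cur hc
    exact hg _ hc
  | succ n ih =>
    intro av hav cur hc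
    simp only [walk]
    have e : av.filter (R cur) = av.filter (R' cur) := by
      apply List.filter_congr
      intro b hb
      exact hR _ hc _ (hav b hb)
    rw [e]
    congr 1
    apply List.map_congr_left
    intro w hw
    have hw2 : w ∈ av := (List.mem_filter.1 hw).1
    exact ih _ (fun a ha => hav a (List.mem_of_mem_erase ha)) w (hav w hw2)

theorem walk_linear {α : Type} [DecidableEq α] (R : α → α → Bool) {ι : Type} (t : Finset ι)
    (k : ι → ℕ) (g : ι → α → ℕ) :
    ∀ (n : ℕ) (av : List α) (cur : α),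
      walk R (fun a => ∑ i ∈ t, k i * g i a) n av cur = ∑ i ∈ t, k i * walk R (g i) n av cur := by
  intro n
  induction n with
  | zero => intro av cur; rfl
  | succ n ih =>
    intro av cur
    simp only [walk, ih]
    induction (av.filter (R cur)) with
    | nil => simp
    | cons a l ihl =>
      simp only [List.map_cons, List.sum_cons, ihl, mul_add, Finset.sum_add_distrib]

theorem walk_map {α β : Type} [DecidableEq α] [DecidableEq β] (φ : α → β)
    (hφ : Function.Injective φ) (R : β → β → Bool) (g : β → ℕ) :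
    ∀ (n : ℕ) (av : List α) (cur : α),
      walk R g n (av.map φ) (φ cur) = walk (fun a b => R (φ a) (φ b)) (fun a => g (φ a)) n av cur := by
  intro n
  induction n with
  | zero => intro av cur; rfl
  | succ n ih =>
    intro av cur
    simp only [walk]
    rw [List.filter_map, List.map_map]
    congr 1
    apply List.map_congr_left
    intro w _
    simp only [Function.comp]
    rw [← List.map_erase hφ, ih]

theorem rot_castSucc : ∀ i : Fin 6, finRotate 7 i.castSucc = i.succ := by decide

/-- number of circuits of a Bool-valued digraph on `Fin 7` as a walk count. -/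
theorem numHam_walk (B : Fin 7 → Fin 7 → Bool) :
    numHam (fun i j => B i j = true) =
      walk B (fun a => if B a 6 = true then 1 else 0) 6 [0, 1, 2, 3, 4, 5] 6 := by
  classical
  rw [← card_good B (fun a => B a 6) 6 [0, 1, 2, 3, 4, 5] (by decide) 6]
  rw [← Finset.card_filter]
  have hchar : ∀ f : Fin 6 → Fin 7,
      Good (fun a b => B a b = true) (fun a => B a 6 = true) 6 [0, 1, 2, 3, 4, 5] 6 f ↔
        Function.Injective (Fin.cons (α := fun _ => Fin 7) 6 f : Fin 7 → Fin 7) ∧
        ∀ k : Fin 7, B (Fin.cons (α := fun _ => Fin 7) 6 f k)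
          (Fin.cons (α := fun _ => Fin 7) 6 f (finRotate 7 k)) = true := by
    intro f
    rw [good_iff _ _ 6 _ (by decide)]
    constructor
    · rintro ⟨h1, h2, h3, h4⟩
      have h1' : ∀ i, f i ≠ 6 := by
        intro i hi
        have := h1 i
        rw [hi] at this
        exact absurd this (by decide)
      refine ⟨?_, ?_⟩
      · intro i j
        refine Fin.cases ?_ (fun i => ?_) i <;> refine Fin.cases ?_ (fun j => ?_) j
        · intro _; rfl
        · intro h; simp only [Fin.cons_zero, Fin.cons_succ] at h; exact absurd h.symm (h1' j)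
        · intro h; simp only [Fin.cons_zero, Fin.cons_succ] at h; exact absurd h (h1' i)
        · intro h; simp only [Fin.cons_succ] at h; rw [h2 h]
      · intro k
        refine Fin.lastCases ?_ (fun i => ?_) k
        · rw [finRotate_last]
          exact h4
        · have := h3 i
          have e : finRotate 7 i.castSucc = i.succ := by
            rw [rot_castSucc]
          rw [e, Fin.cons_succ]
          exact this
    · rintro ⟨h1, h2⟩
      refine ⟨?_, ?_, ?_, ?_⟩
      · intro i
        have h6 : f i ≠ 6 := by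
          intro hi
          have : (Fin.cons (α := fun _ => Fin 7) 6 f : Fin 7 → Fin 7) i.succ =
              (Fin.cons (α := fun _ => Fin 7) 6 f : Fin 7 → Fin 7) 0 := by
            rw [Fin.cons_succ, Fin.cons_zero, hi]
          exact absurd (h1 this) (Fin.succ_ne_zero i)
        revert h6
        generalize f i = x
        revert x
        decide
      · intro i j h
        have : (Fin.cons (α := fun _ => Fin 7) 6 f : Fin 7 → Fin 7) i.succ =
              (Fin.cons (α := fun _ => Fin 7) 6 f : Fin 7 → Fin 7) j.succ := by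
          rw [Fin.cons_succ, Fin.cons_succ, h]
        exact Fin.succ_injective _ (h1 this)
      · intro i
        have := h2 i.castSucc
        have e : finRotate 7 i.castSucc = i.succ := by
          rw [rot_castSucc]
        rw [e, Fin.cons_succ] at this
        exact this
      · have := h2 (Fin.last 6)
        rw [finRotate_last] at this
        exact this
  have himg : hamCircuits (fun i j => B i j = true) =
      (fun f : Fin 6 → Fin 7 => {p : Fin 7 × Fin 7 | ∃ k : Fin 7,
        p = ((Fin.cons (α := fun _ => Fin 7) 6 f : Fin 7 → Fin 7) k,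
          (Fin.cons (α := fun _ => Fin 7) 6 f : Fin 7 → Fin 7) (finRotate 7 k))}) ''
      (Finset.univ.filter (fun f : Fin 6 → Fin 7 =>
        Good (fun a b => B a b = true) (fun a => B a 6 = true) 6 [0, 1, 2, 3, 4, 5] 6 f) :
        Finset (Fin 6 → Fin 7)) := by
    ext E
    constructor
    · rintro ⟨σ, rfl, hσ⟩
      -- rotate so that σ starts at 6
      obtain ⟨k0, hk0⟩ := σ.surjective 6
      have hrot : ∀ k : Fin 7, finRotate 7 k = k + 1 := by decide
      let τ : Fin 7 → Fin 7 := fun k => σ (k + k0)
      have hτ0 : τ 0 = 6 := by simp [τ, hk0]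
      have hcons : (Fin.cons (α := fun _ => Fin 7) 6 (fun i : Fin 6 => τ i.succ) :
          Fin 7 → Fin 7) = τ := by
        ext k
        refine Fin.cases ?_ (fun i => ?_) k
        · rw [Fin.cons_zero, hτ0]
        · rw [Fin.cons_succ]
      have hτinj : Function.Injective τ := by
        intro i j h
        have := σ.injective h
        exact add_right_cancel this
      refine ⟨fun i : Fin 6 => τ i.succ, ?_, ?_⟩
      · rw [Finset.mem_coe, Finset.mem_filter]
        refine ⟨Finset.mem_univ _, ?_⟩
        rw [hchar, hcons]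
        refine ⟨hτinj, ?_⟩
        intro k
        have := hσ (k + k0)
        rw [hrot] at this
        rw [hrot]
        show B (σ (k + k0)) (σ (k + 1 + k0)) = true
        rw [add_right_comm]
        exact this
      · simp only [hcons]
        ext p
        constructor
        · rintro ⟨k, rfl⟩
          refine ⟨k + k0, ?_⟩
          rw [hrot, hrot]
          show (σ (k + k0), σ (k + 1 + k0)) = _
          rw [add_right_comm]
        · rintro ⟨k, rfl⟩
          refine ⟨k - k0, ?_⟩
          rw [hrot, hrot]
          show _ = (σ (k - k0 + k0), σ (k - k0 + 1 + k0))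
          rw [add_right_comm, sub_add_cancel]
    · rintro ⟨f, hf, rfl⟩
      rw [Finset.mem_coe, Finset.mem_filter, hchar] at hf
      obtain ⟨_, hinj, harc⟩ := hf
      exact ⟨Equiv.ofBijective _ (Finite.injective_iff_bijective.1 hinj), rfl, harc⟩
  unfold numHam
  rw [himg, Set.InjOn.ncard_image, Set.ncard_coe_finset]
  intro f hf f' hf' heq
  rw [Finset.mem_coe, Finset.mem_filter, hchar] at hf hf'
  obtain ⟨_, hinj, harc⟩ := hf
  obtain ⟨_, hinj', harc'⟩ := hf'
  simp only at heq
  have key : ∀ k : Fin 7, (Fin.cons (α := fun _ => Fin 7) 6 f : Fin 7 → Fin 7) k =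
      (Fin.cons (α := fun _ => Fin 7) 6 f' : Fin 7 → Fin 7) k := by
    intro k
    refine Fin.induction ?_ (fun i ih => ?_) k
    · rfl
    · have hmem : ((Fin.cons (α := fun _ => Fin 7) 6 f : Fin 7 → Fin 7) i.castSucc,
          (Fin.cons (α := fun _ => Fin 7) 6 f : Fin 7 → Fin 7) (finRotate 7 i.castSucc)) ∈
          {p : Fin 7 × Fin 7 | ∃ k : Fin 7,
        p = ((Fin.cons (α := fun _ => Fin 7) 6 f' : Fin 7 → Fin 7) k,
          (Fin.cons (α := fun _ => Fin 7) 6 f' : Fin 7 → Fin 7) (finRotate 7 k))} := by
        rw [← heq]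
        exact ⟨_, rfl⟩
      obtain ⟨j, hj⟩ := hmem
      rw [Prod.mk.injEq] at hj
      obtain ⟨hj1, hj2⟩ := hj
      rw [ih] at hj1
      have hjj := hinj' hj1
      rw [← hjj] at hj2
      have e : finRotate 7 i.castSucc = i.succ := by
        rw [rot_castSucc]
      rw [e] at hj2
      exact hj2
  funext i
  have := key i.succ
  rw [Fin.cons_succ, Fin.cons_succ] at this
  exact this

/-! ### the finite check -/

def delta (b a : ℕ) : ℕ := if a = b then 1 else 0

def six : List ℕ := [0, 1, 2, 3, 4, 5]

def chkMat (e : ℕ × List (List ℕ)) : Bool :=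
  six.all fun a => six.all fun b =>
    Nat.beq (walk (adjC e.1) (delta b) 5 (six.erase a) a) ((e.2.getD a []).getD b 0)

def bil (M : List (List ℕ)) (S : ℕ) : ℕ :=
  ((six.filter (fun a => S.testBit a)).map (fun a =>
    ((six.map (fun b => (if S.testBit b = true then 0 else 1) * (M.getD a []).getD b 0)).sum))).sum

theorem mats_ok : mats.all chkMat = true := by decide +kernel

def chkVal (e : ℕ × List (List ℕ)) : Bool :=
  (List.range 64).all fun S => !(Nat.beq (bil e.2 S) 16)

theorem vals_ok : mats.all chkVal = true := by decide +kernel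

theorem numHam_ext (c S : ℕ) (M : List (List ℕ)) (hM : chkMat (c, M) = true) :
    numHam (fun i j : Fin 7 => extC 6 c S i.val j.val = true) = bil M S := by
  rw [numHam_walk (fun i j : Fin 7 => extC 6 c S i.val j.val)]
  have h1 := walk_map (α := Fin 7) (β := ℕ) Fin.val Fin.val_injective (extC 6 c S)
    (fun a => if extC 6 c S a 6 = true then 1 else 0) 6 [0, 1, 2, 3, 4, 5] 6
  have h2 : walk (fun a b : Fin 7 => extC 6 c S a.val b.val)
      (fun a => if extC 6 c S a.val (6 : Fin 7).val = true then 1 else 0) 6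
      [0, 1, 2, 3, 4, 5] 6 = walk (extC 6 c S)
      (fun a => if extC 6 c S a 6 = true then 1 else 0) 6 six 6 := h1.symm
  rw [h2]
  have h3 : walk (extC 6 c S) (fun a => if extC 6 c S a 6 = true then 1 else 0) 6 six 6 =
      ((six.filter (extC 6 c S 6)).map (fun w => walk (extC 6 c S)
        (fun a => if extC 6 c S a 6 = true then 1 else 0) 5 (six.erase w) w)).sum := rfl
  rw [h3]
  have hf : six.filter (extC 6 c S 6) = six.filter (fun a => S.testBit a) := by
    apply List.filter_congr
    intro b hb
    have hb6 : b < 6 := by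
      simp only [six, List.mem_cons, List.not_mem_nil, or_false] at hb
      omega
    unfold extC
    rw [if_pos rfl, if_neg (by omega)]
  rw [hf]
  unfold bil
  congr 1
  apply List.map_congr_left
  intro a ha
  have ha' := (List.mem_filter.1 ha).1
  have ha6 : a < 6 := by
    simp only [six, List.mem_cons, List.not_mem_nil, or_false] at ha'
    omega
  have h4 : walk (extC 6 c S) (fun a => if extC 6 c S a 6 = true then 1 else 0) 5
      (six.erase a) a = walk (adjC c) (fun x => ∑ b ∈ Finset.range 6,
        (if S.testBit b = true then 0 else 1) * delta b x) 5 (six.erase a) a := by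
    apply walk_congr (s := {x | x < 6})
    · intro x hx y hy
      unfold extC
      rw [if_neg (by have : x < 6 := hx; omega), if_neg (by have : y < 6 := hy; omega)]
    · intro x hx
      have hx6 : x < 6 := hx
      have e6 : extC 6 c S x 6 = !(S.testBit x) := by
        unfold extC
        rw [if_neg (by omega), if_pos rfl]
      simp only [e6]
      unfold delta
      rw [Finset.sum_eq_single x]
      · cases S.testBit x <;> simp
      · intro b _ hb
        rw [if_neg (Ne.symm hb)]
        simp
      · intro h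
        exact absurd (Finset.mem_range.2 hx6) h
    · intro x hx
      have := List.mem_of_mem_erase hx
      simp only [six, List.mem_cons, List.not_mem_nil, or_false] at this
      show x < 6
      omega
    · exact ha6
  rw [h4, walk_linear]
  have hent : ∀ b, b ∈ six → walk (adjC c) (delta b) 5 (six.erase a) a =
      (M.getD a []).getD b 0 := by
    intro b hb
    unfold chkMat at hM
    rw [List.all_eq_true] at hM
    have := hM a ha'
    rw [List.all_eq_true] at this
    exact Nat.eq_of_beq_eq_true (this b hb)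
  have h5 : ∀ F : ℕ → ℕ, ∑ b ∈ Finset.range 6, F b = (six.map F).sum := by
    intro F
    simp [Finset.sum_range_succ, six]
    ring
  rw [h5]
  congr 1
  apply List.map_congr_left
  intro b hb
  rw [hent b hb]

theorem no16 (T : Fin 7 → Fin 7 → Prop) (hT : IsTournament T) : numHam T ≠ 16 := by
  obtain ⟨c, hc, hiso⟩ := class6 _ (restrict_tournament hT)
  obtain ⟨S, hS, π, hπ⟩ := ext_iso hT hiso
  rw [numHam_iso T (fun i j : Fin 7 => extC 6 c S i.val j.val = true) π hπ]
  rw [List.mem_map] at hc
  obtain ⟨e, he, rfl⟩ := hc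
  have h1 := mats_ok
  have h2 := vals_ok
  rw [List.all_eq_true] at h1 h2
  rw [numHam_ext e.1 S e.2 (h1 e he)]
  have h3 := h2 e he
  unfold chkVal at h3
  rw [List.all_eq_true] at h3
  have h4 := h3 S (List.mem_range.2 hS)
  intro h5
  rw [h5] at h4
  exact absurd h4 (by decide)

/-- code of the six-vertex part of the quadratic residue tournament -/
theorem has24 : ∃ T : Fin 7 → Fin 7 → Prop, IsTournament T ∧ numHam T = 24 := by
  refine ⟨fun i j : Fin 7 => extC 6 28613426743600 44 i.val j.val = true, ?_, ?_⟩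
  · constructor
    · decide +kernel
    · decide +kernel
  · have hex : ∃ e ∈ mats, e.1 = 28613426743600 ∧ bil e.2 44 = 24 := by decide +kernel
    obtain ⟨e, he, h1, h2⟩ := hex
    have h3 := mats_ok
    rw [List.all_eq_true] at h3
    rw [← h1, numHam_ext e.1 44 e.2 (h3 e he), h2]

/-- It is not true that for every `n ≥ 1` and every `h` with `0 ≤ h ≤ h_o(n)` there is an
`n`-tournament with exactly `h` Hamiltonian circuits. -/
theorem result :
    ¬ (∀ n : ℕ, 1 ≤ n → ∀ h : ℕ,
      (∃ T : Fin n → Fin n → Prop, IsTournament T ∧ h ≤ numHam T) →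
      ∃ T : Fin n → Fin n → Prop, IsTournament T ∧ numHam T = h) := by
  intro H
  obtain ⟨T0, hT0, h24⟩ := has24
  obtain ⟨T, hT, h16⟩ := H 7 (by norm_num) 16 ⟨T0, hT0, by rw [h24]; norm_num⟩
  exact no16 T hT h16

end Pool.Agent.Results.MP_9038fc_co.HamGap
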